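import Pool.Agent.R707.Conc1
import Pool.Agent.R707.Def2
import Pool.Agent.R707.Ex2
import Pool.Agent.R707.Ring2

/-!
# Good and Verdier good maps of exact triangles: neither implies the other

* In the homotopy category of complexes of `ℤ/64`-modules there is a map of exact triangles which is
  Verdier good but not good: with `P` the module `ℤ/64` in degree `0`, it is the map
  `(8, 4, ψ w)` from `P -4-> P -v-> Z -w-> P⟦1⟧` to `P -2-> P -v'-> Z' -w'-> P⟦1⟧`, where
  `w' ψ = 32`.
* Let `S = ℤ/64 ×_{ℤ/8} (ℤ/8)[ε]`, `c = 2` and `f = 2 + ε` in `S`.  In the homotopy category of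
  complexes of `S`-modules there is a map of exact triangles which is good but not Verdier good:
  with `P` the module `S` in degree `0`, it is of the form `(f, c, h)`, from
  `P -cf-> P -v-> Z -w-> P⟦1⟧` to `P -c²-> P -v'-> Z' -w'-> P⟦1⟧`.
-/

set_option autoImplicit false

open CategoryTheory Limits Pretriangulated Triangulated Pool.Agent.R707

/-- Some triangulated category has a good map of exact triangles which is not Verdier good, and
some triangulated category has a Verdier good map of exact triangles which is not good. -/
theorem Pool.Agent.Results.MP_f37e0b_al.GoodVersusVerdierGood.result :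
    (∃ (R : Type) (_ : CommRing R), HasGoodNotVerdierGood (KMod R)) ∧
    (∃ (R : Type) (_ : CommRing R), HasVerdierGoodNotGood (KMod R)) := by
  constructor
  · refine ⟨ring2, inferInstance, ex2_main (P := unitObj ring2) (c := cc) (f := ff) ?_⟩
    exact { surj := unit_surj _, inj := unit_inj _, rel := rel2, key := key2 }
  · obtain ⟨Z, v, w, Z', v', w', ψ, hT, hT', hψ⟩ := exists_data
    exact ⟨ZMod 64, inferInstance, _, _, hT, hT', exMap hT hT' ψ hψ,
      exMap_verdierGood hyp64 hT hT' ψ hψ, exMap_not_good hyp64 hT hT' ψ hψ⟩
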